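import Mathlib
import Pool.Agent.H68.TreeMain

set_option autoImplicit false

namespace Pool.Agent.Results.MP_77f213_al.NoRoughIsometry

theorem result :
    ∃ (G X₀ X₁ : Type) (_ : Group G) (_ : MetricSpace X₀) (_ : MetricSpace X₁)
      (_ : MulAction G X₀) (_ : MulAction G X₁),
      Group.FG G ∧ ProperSpace X₀ ∧ ProperSpace X₁ ∧ Nonempty X₀ ∧ Nonempty X₁ ∧
      IsIsometricSMul G X₀ ∧ IsIsometricSMul G X₁ ∧
      ProperlyDiscontinuousSMul G X₀ ∧ ProperlyDiscontinuousSMul G X₁ ∧
      (∀ x y : X₀, ∃ γ : ℝ → X₀, γ 0 = x ∧ γ (dist x y) = y ∧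
        ∀ s ∈ Set.Icc (0:ℝ) (dist x y), ∀ t ∈ Set.Icc (0:ℝ) (dist x y),
          dist (γ s) (γ t) = |s - t|) ∧
      (∀ x y : X₁, ∃ γ : ℝ → X₁, γ 0 = x ∧ γ (dist x y) = y ∧
        ∀ s ∈ Set.Icc (0:ℝ) (dist x y), ∀ t ∈ Set.Icc (0:ℝ) (dist x y),
          dist (γ s) (γ t) = |s - t|) ∧
      (∃ K : Set X₀, IsCompact K ∧ ∀ x : X₀, ∃ g : G, g • x ∈ K) ∧
      (∃ K : Set X₁, IsCompact K ∧ ∀ x : X₁, ∃ g : G, g • x ∈ K) ∧
      (∃ δ : ℝ, ∀ x y z w : X₀,
        min ((dist x w + dist y w - dist x y) / 2) ((dist y w + dist z w - dist y z) / 2) - δ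
          ≤ (dist x w + dist z w - dist x z) / 2) ∧
      (∃ δ : ℝ, ∀ x y z w : X₁,
        min ((dist x w + dist y w - dist x y) / 2) ((dist y w + dist z w - dist y z) / 2) - δ
          ≤ (dist x w + dist z w - dist x z) / 2) ∧
      (∀ L : ℝ, 1 < L → ∃ f : X₀ → X₁, ∃ c : ℝ,
        (∀ x y : X₀, dist x y / L - c ≤ dist (f x) (f y) ∧
            dist (f x) (f y) ≤ L * dist x y + c) ∧
        ∀ z : X₁, ∃ x : X₀, dist (f x) z ≤ c) ∧
      ¬ ∃ f : X₀ → X₁, ∃ c : ℝ,
        ∀ x y : X₀, dist x y - c ≤ dist (f x) (f y) ∧ dist (f x) (f y) ≤ dist x y + c := by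
  open Pool.Agent.H68 Pool.Agent.H68.TreeW in
  refine ⟨GG, X0, X1, inferInstance, inferInstance, inferInstance, inferInstance, inferInstance,
    ?_, inferInstance, inferInstance, inferInstance, inferInstance, inferInstance, inferInstance,
    inferInstance, inferInstance, Realize.geodesic nb (ex_nb 0) good,
    Realize.geodesic nb (ex_nb 0) good, Realize.cocompact (root _) 1 cc4,
    Realize.cocompact (root _) 1 cc3, Realize.hyper hyp, Realize.hyper hyp, fun L hL => ?_, ?_⟩
  · refine Group.fg_iff.2 ⟨Set.range fun i => gen [i] (List.isChain_singleton i), ?_,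
      Set.finite_range _⟩
    have key : ∀ w hw, gen w hw ∈
        Subgroup.closure (Set.range fun i => gen [i] (List.isChain_singleton i)) := by
      intro w hw
      induction w with
      | nil => exact Subgroup.one_mem _
      | cons a w ih =>
        have : gen (a :: w) hw = gen [a] (List.isChain_singleton a) * gen w hw.tail :=
          Subtype.ext (by simp [gen, Cay.ev])
        rw [this]
        exact Subgroup.mul_mem _ (Subgroup.subset_closure ⟨a, rfl⟩) (ih _)
    rw [eq_top_iff]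
    intro g _
    obtain ⟨w, hw, e⟩ := mem_GG g
    have : g = gen w hw := Subtype.ext (by rw [e, gen_val])
    exact this ▸ key w hw
  · obtain ⟨L', h1, h2, f, c, h3, h4⟩ := near_one L hL
    refine ⟨f, c, fun x y => ?_, h4⟩
    have a1 := div_le_div_of_nonneg_left (dist_nonneg (x := x) (y := y)) (by linarith) h2.le
    have a2 := mul_le_mul_of_nonneg_right h2.le (dist_nonneg (x := x) (y := y))
    constructor <;> linarith [(h3 x y).1, (h3 x y).2]
  · rintro ⟨f, c, h⟩
    exact no_one f c (by simpa using h)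

end Pool.Agent.Results.MP_77f213_al.NoRoughIsometry
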